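import Pool.Agent.W46.HM.Final

/-!
# Kakeya tube inequality in high dimensions

The inequality of the problem, without any loss, for all `n ≥ 26` and all
`q ≥ 1 + 1.6752 / (n - 1)`.
-/

set_option autoImplicit false

open MeasureTheory

namespace Pool.Agent.Results.MP_850839_an.ArithmeticTubes

/-- The `δ`-tube with centre `a` and direction `e` (a unit vector): the closed cylinder of length
`1` and radius `δ` around the segment with centre `a` and direction `e`. -/
def tube {n : ℕ} (δ : ℝ) (a e : EuclideanSpace ℝ (Fin n)) : Set (EuclideanSpace ℝ (Fin n)) :=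
  {y | |inner ℝ (y - a) e| ≤ 1 / 2 ∧ ‖(y - a) - (inner ℝ (y - a) e) • e‖ ≤ δ}

theorem result (n : ℕ) (hn : 26 ≤ n) (q : ℝ) (hq : 1 + 1.6752 / ((n : ℝ) - 1) ≤ q) :
    ∃ C : ℝ, 0 < C ∧ ∀ δ : ℝ, 0 < δ → δ < 1 → ∀ (ι : Type) [Fintype ι]
      (a e : ι → EuclideanSpace ℝ (Fin n)), (∀ i, ‖e i‖ = 1) →
      (∀ i j, i ≠ j → δ ≤ ‖e i - e j‖) →
      eLpNorm (fun x => ∑ i, (tube δ (a i) (e i)).indicator (fun _ => (1 : ℝ)) x)
          (ENNReal.ofReal q) volume ≤
        ENNReal.ofReal (C * δ ^ (((n : ℝ) - 1) / q) *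
          (Fintype.card ι : ℝ) ^ (1 - 1 / (q * ((n : ℝ) - 1)))) := by
  obtain ⟨d, rfl⟩ : ∃ d, n = d + 1 := ⟨n - 1, by omega⟩
  have hd : 25 ≤ d := by omega
  have hdr : (25 : ℝ) ≤ (d : ℝ) := by exact_mod_cast hd
  have e1 : (((d + 1 : ℕ) : ℝ) - 1) = d := by push_cast; ring
  rw [e1] at hq
  have e2 : (1.6752 : ℝ) = 16752 / 10000 := by norm_num
  rw [e2] at hq
  have hq0 : 0 < q := by
    have : (0 : ℝ) < 16752 / 10000 / (d : ℝ) := by positivity
    linarith
  obtain ⟨C, hC, h⟩ := Pool.Agent.W46.HM.tubeq q d hd hq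
  refine ⟨C ^ (1 / q), by positivity, ?_⟩
  intro δ hδ hδ1 ι _ a e he hsep
  have key := h δ hδ hδ1.le ι a e he hsep
  rw [eLpNorm_eq_lintegral_rpow_enorm_toReal (by
    rw [ne_eq, ENNReal.ofReal_eq_zero, not_le]; exact hq0) ENNReal.ofReal_ne_top,
    ENNReal.toReal_ofReal hq0.le, e1]
  have e3 : ∀ x, ‖∑ i, (tube δ (a i) (e i)).indicator (fun _ => (1 : ℝ)) x‖ₑ =
      ∑ i, (Pool.Agent.W46.KK.tube δ (a i) (e i)).indicator (fun _ => (1 : ENNReal)) x := by
    intro x
    rw [Real.enorm_of_nonneg (Finset.sum_nonneg fun i _ =>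
      Set.indicator_nonneg (fun _ _ => zero_le_one) _),
      ENNReal.ofReal_sum_of_nonneg fun i _ => Set.indicator_nonneg (fun _ _ => zero_le_one) _]
    refine Finset.sum_congr rfl fun i _ => ?_
    by_cases hx : x ∈ tube δ (a i) (e i)
    · have hx' : x ∈ Pool.Agent.W46.KK.tube δ (a i) (e i) := hx
      rw [Set.indicator_of_mem hx, Set.indicator_of_mem hx', ENNReal.ofReal_one]
    · have hx' : x ∉ Pool.Agent.W46.KK.tube δ (a i) (e i) := hx
      rw [Set.indicator_of_notMem hx, Set.indicator_of_notMem hx', ENNReal.ofReal_zero]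
  simp only [e3]
  refine (ENNReal.rpow_le_rpow key (by positivity)).trans (le_of_eq ?_)
  rw [ENNReal.ofReal_rpow_of_nonneg (by positivity) (by positivity)]
  congr 1
  rw [Real.mul_rpow (by positivity) (by positivity), Real.mul_rpow (by positivity) (by positivity),
    ← Real.rpow_mul hδ.le, ← Real.rpow_mul (by positivity)]
  congr 2
  · congr 1
    ring
  · field_simp

end Pool.Agent.Results.MP_850839_an.ArithmeticTubes
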