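import Pool.Agent.W769.Ent.Sphere

set_option autoImplicit false

/-!
# MP_850839: families of `δ`-tubes whose positions are a Lipschitz function of the direction:
# the entropy of the multiplicity function

In `ℝ^n`, `n ≥ 3`, consider any finite family `T i` of `δ`-tubes (length one, radius `δ`) with
`δ`-separated orientations `e i` and centres `a i` with `|a i - a j| ≤ L |e i - e j|`.  No hypothesis
is made on the number of the tubes or on their overlap.  Let `N = ∑ 1_{T i}` be the multiplicity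
function and put `X = (1 + L)^(2n²-1) (1 + log (1/δ))^(1 - 1/(n² + (n-1)²))`.

* (entropy) `∫ N log⁺ N ≤ C X` with `C = C(n)`.  The trivial bound is `C (1 + log (1/δ))`.
* (sets) If `∑ |T i ∩ E| ≥ γ`, then `|E| ≥ exp (-(C/γ) X)`; in particular, the union of any
  `γ δ^(1-n)` tubes of the family has volume at least `exp (-(C'/γ) X)`, and so the loss is smaller
  than every power of `δ`.

The proof compares the family with linear families: by quantitative differentiation, a Lipschitz map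
is nearly affine at all but few scales and locations, and the sections `v ↦ A v + t v` of a linear
family are injective with a lower bound unless `t` is close to one of the `n - 1` eigenvalues
of `-A`.
-/

open MeasureTheory Set
open scoped ENNReal InnerProductSpace

namespace Pool.Agent.Results.MP_850839_an.LipschitzEntropy

/-- The `δ`-tube in `ℝ^n` of length one and radius `δ` with centre `a` and axis parallel to `e`. -/
def tube {n : ℕ} (δ : ℝ) (e a : EuclideanSpace ℝ (Fin n)) : Set (EuclideanSpace ℝ (Fin n)) :=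
  {y | |⟪y - a, e⟫_ℝ| ≤ 1 / 2 ∧ ‖(y - a) - ⟪y - a, e⟫_ℝ • e‖ ≤ δ}

/-- The sum of the indicator functions of the tubes of a family. -/
noncomputable def mult {n : ℕ} {ι : Type} [Fintype ι] (δ : ℝ)
    (e a : ι → EuclideanSpace ℝ (Fin n)) (y : EuclideanSpace ℝ (Fin n)) : ℝ :=
  ∑ i, (tube δ (e i) (a i)).indicator (fun _ => (1 : ℝ)) y

/-- `X = (1 + L)^(2n²-1) (1 + log (1/δ))^(1 - 1/(n² + (n-1)²))` -/
noncomputable def loss (n : ℕ) (L δ : ℝ) : ℝ :=
  (1 + L) ^ (2 * n ^ 2 - 1) *
    (1 + Real.log (1 / δ)) ^ (1 - 1 / ((n : ℝ) ^ 2 + ((n : ℝ) - 1) ^ 2))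

theorem loss_eq (d : ℕ) (L δ : ℝ) : loss (d + 1) L δ = (1 + L) ^ (2 * d * (d + 2) + 1) *
    (1 + Real.log (1 / δ)) ^ (1 - 1 / (2 * (d : ℝ) ^ 2 + 2 * d + 1)) := by
  unfold loss
  have h1 : 2 * (d + 1) ^ 2 - 1 = 2 * d * (d + 2) + 1 := by
    have : 2 * (d + 1) ^ 2 = 2 * d * (d + 2) + 2 := by ring
    omega
  have h2 : (((d + 1 : ℕ) : ℝ)) ^ 2 + (((d + 1 : ℕ) : ℝ) - 1) ^ 2 = 2 * (d : ℝ) ^ 2 + 2 * d + 1 := by
    push_cast
    ring
  rw [h1, h2]

/-- **Entropy of the multiplicity function of a family of tubes with Lipschitz positions**, and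
lower bounds for the sets that meet the tubes in a given mass. -/
theorem result (n : ℕ) (hn : 3 ≤ n) : ∃ C : ℝ, 0 < C ∧ ∀ (ι : Type) [Fintype ι]
    (e a : ι → EuclideanSpace ℝ (Fin n)) (L δ : ℝ), 0 ≤ L → 0 < δ → δ ≤ 1 →
    (∀ i, ‖e i‖ = 1) → (∀ i j, i ≠ j → δ ≤ ‖e i - e j‖) →
    (∀ i j, ‖a i - a j‖ ≤ L * ‖e i - e j‖) →
    ∫⁻ y, ENNReal.ofReal (mult δ e a y * Real.posLog (mult δ e a y))
        ≤ ENNReal.ofReal (C * loss n L δ) ∧
    ∀ (γ : ℝ) (E : Set (EuclideanSpace ℝ (Fin n))), 0 < γ →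
      ENNReal.ofReal γ ≤ ∑ i, volume (tube δ (e i) (a i) ∩ E) →
      ENNReal.ofReal (Real.exp (-(C / γ * loss n L δ))) ≤ volume E := by
  obtain ⟨d, rfl⟩ : ∃ d, n = d + 1 := ⟨n - 1, by omega⟩
  obtain ⟨C1, hC1, h1⟩ := Pool.Agent.W769.Ent.sphere_all (d := d) (by omega)
  obtain ⟨C2, hC2, h2⟩ := Pool.Agent.W769.Ent.sphere_level (d := d) (by omega)
  refine ⟨C1 + C2, by positivity, ?_⟩
  intro ι _ e a L δ hL hδ hδ1 he hsep hlip
  have hlogδ : 0 ≤ Real.log (1 / δ) := Real.log_nonneg (by rw [le_div_iff₀ hδ]; linarith)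
  have hloss : 0 ≤ loss (d + 1) L δ := by
    rw [loss_eq]
    positivity
  constructor
  · have h3 := h1 ι e a L δ hL hδ hδ1 he hsep hlip
    have h4 : ∀ y, mult δ e a y * Real.posLog (mult δ e a y) ≤
        Pool.Agent.W769.Ent.Ph (Pool.Agent.W769.Ent.Nt e a δ y) := by
      intro y
      have h5 : mult δ e a y = Pool.Agent.W769.Ent.Nt e a δ y := rfl
      rw [h5]
      have h6 := Pool.Agent.W769.Ent.Nt_nonneg e a δ y
      unfold Pool.Agent.W769.Ent.Ph
      nlinarith
    calc ∫⁻ y, ENNReal.ofReal (mult δ e a y * Real.posLog (mult δ e a y))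
        ≤ ∫⁻ y, ENNReal.ofReal (Pool.Agent.W769.Ent.Ph (Pool.Agent.W769.Ent.Nt e a δ y)) :=
          lintegral_mono fun y => ENNReal.ofReal_le_ofReal (h4 y)
      _ ≤ _ := h3
      _ ≤ ENNReal.ofReal ((C1 + C2) * loss (d + 1) L δ) := by
          apply ENNReal.ofReal_le_ofReal
          have h7 := loss_eq d L δ
          rw [mul_assoc, ← h7]
          nlinarith
  · intro γ E hγ hint
    have h3 := h2 ι e a L δ hL hδ hδ1 he hsep hlip γ E hγ hint
    refine le_trans (ENNReal.ofReal_le_ofReal (Real.exp_le_exp.2 (neg_le_neg ?_))) h3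
    have h7 := loss_eq d L δ
    rw [mul_assoc, ← h7]
    gcongr
    linarith

end Pool.Agent.Results.MP_850839_an.LipschitzEntropy
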