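import Pool.Agent.W769.Iso.Union

set_option autoImplicit false

/-!
# MP_850839: the union of `δ`-tubes whose positions are a Lipschitz function of the direction

In `ℝ^n`, `n ≥ 3`, consider any finite family of `δ`-tubes (length one, radius `δ`) with directions
`e i` and centres `a i` such that

* every direction in a cap of radius `r` is within `δ` of some `e i` (for instance, the `e i` are
  a maximal `δ`-separated set), and
* the centres are, down to scale `δ`, an `L`-Lipschitz function of the direction: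
  `|a i - a j| ≤ L (|e i - e j| + δ)`.

Then the union of the tubes has volume at least `c r^(n-1) (1 + L)^(-n(n-1))`, `c = c(n) > 0`: there
is no loss in `δ` at all (for general families a logarithmic loss occurs, by the constructions of
Besicovitch sets) and no hypothesis on the multiplicity.
-/

open MeasureTheory Set
open scoped ENNReal InnerProductSpace

namespace Pool.Agent.Results.MP_850839_an.LipschitzUnion

/-- The `δ`-tube in `ℝ^n` of length one and radius `δ` with centre `a` and axis parallel to `e`. -/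
def tube {n : ℕ} (δ : ℝ) (e a : EuclideanSpace ℝ (Fin n)) : Set (EuclideanSpace ℝ (Fin n)) :=
  {y | |⟪y - a, e⟫_ℝ| ≤ 1 / 2 ∧ ‖(y - a) - ⟪y - a, e⟫_ℝ • e‖ ≤ δ}

/-- **The union of tubes with Lipschitz positions is large, uniformly in `δ`.** -/
theorem result (n : ℕ) (hn : 3 ≤ n) : ∃ c : ℝ, 0 < c ∧ ∀ (ι : Type) [Fintype ι]
    (e a : ι → EuclideanSpace ℝ (Fin n)) (e₀ : EuclideanSpace ℝ (Fin n)) (r δ L : ℝ),
    0 < r → r ≤ 1 → 0 < δ → δ < 1 → 0 ≤ L → ‖e₀‖ = 1 → (∀ i, ‖e i‖ = 1) →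
    (∀ ω : EuclideanSpace ℝ (Fin n), ‖ω‖ = 1 → ‖ω - e₀‖ ≤ r → ∃ i, ‖ω - e i‖ ≤ δ) →
    (∀ i j, ‖a i - a j‖ ≤ L * (‖e i - e j‖ + δ)) →
    ENNReal.ofReal (c * r ^ (n - 1) * ((1 + L) ^ (n * (n - 1)))⁻¹) ≤
      volume (⋃ i, tube δ (e i) (a i)) := by
  obtain ⟨d, rfl⟩ : ∃ d, n = d + 1 := ⟨n - 1, by omega⟩
  obtain ⟨c, hc, h⟩ := Pool.Agent.W769.Iso.union_tubes (d := d) (by omega)
  refine ⟨c, hc, ?_⟩
  intro ι _ e a e₀ r δ L hr hr1 hδ hδ1 hL he₀ he hnet hlip
  exact h ι e a e₀ r δ L hr hr1 hδ hδ1 hL he₀ he hnet hlip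

end Pool.Agent.Results.MP_850839_an.LipschitzUnion
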