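import Pool.Agent.W770.SA.Major

set_option autoImplicit false

/-!
# MP_850839: the tube inequality for arbitrary tubes and semialgebraic test functions, without loss

All families of `δ`-tubes with `δ`-separated orientations are allowed.  The inequality of the
problem is, by duality, the inequality `∫ g Σ 1_T ≤ C δ^((n-1)/q) (#T)^(1-1/(q(n-1))) ‖g‖_{q'}`
for all `g`.  It is proved here, for all `q > n/(n-1)` and without loss in `δ`, for all
semialgebraic test functions `g`, with a constant which is a power of the complexity of `g`; hence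
the inequality of the problem holds for all families whose multiplicity function has a
semialgebraic majorant of bounded complexity and of comparable norm.

A set is *basic open of degree at most `D`* if it is given by finitely many strict polynomial
inequalities `P i > 0` whose degrees add up to at most `D`; a set has *complexity at most `D`* if it
is a union of at most `D` such sets; a function `g` is *semialgebraic of complexity at most `D`* if
every superlevel set `{|g| > s}`, `s > 0`, agrees up to a null set with a set of complexity at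
most `D`.
-/

open MeasureTheory Set Filter Topology ENNReal NNReal Metric

namespace Pool.Agent.Results.MP_850839_an.SemialgebraicTests

/-- `S` is given by finitely many inequalities `P i > 0`, of degrees adding up to at most `D`. -/
def BasicOpen {n : ℕ} (D : ℕ) (S : Set (EuclideanSpace ℝ (Fin n))) : Prop :=
  ∃ (m : ℕ) (P : Fin m → MvPolynomial (Fin n) ℝ), ∑ i, (P i).totalDegree ≤ D ∧
    S = {x | ∀ i, 0 < MvPolynomial.eval (fun l => x l) (P i)}

/-- `A` is the union of `D` (possibly empty) basic open sets of degree at most `D`. -/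
def ComplexityLE {n : ℕ} (D : ℕ) (A : Set (EuclideanSpace ℝ (Fin n))) : Prop :=
  ∃ S : Fin D → Set (EuclideanSpace ℝ (Fin n)), (∀ i, BasicOpen D (S i)) ∧ A = ⋃ i, S i

/-- The superlevel sets of `|f|` have complexity at most `D`, up to null sets. -/
def SemialgAE {n : ℕ} (D : ℕ) (f : EuclideanSpace ℝ (Fin n) → ℝ) : Prop :=
  ∀ s : ℝ, 0 < s → ∃ A : Set (EuclideanSpace ℝ (Fin n)), ComplexityLE D A ∧
    {y | s < |f y|} =ᵐ[volume] A

/-- The closed tube of length `1` and radius `δ` with centre `b` and axis direction `e`. -/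
def tube {n : ℕ} (δ : ℝ) (e b : EuclideanSpace ℝ (Fin n)) : Set (EuclideanSpace ℝ (Fin n)) :=
  {y | |inner ℝ (y - b) e| ≤ 1 / 2 ∧ ‖(y - b) - (inner ℝ (y - b) e : ℝ) • e‖ ≤ δ}

/-- Unit vectors that are `δ`-separated. -/
def Separated {n : ℕ} (δ : ℝ) {ι : Type} (e : ι → EuclideanSpace ℝ (Fin n)) : Prop :=
  (∀ i, ‖e i‖ = 1) ∧ ∀ i j, i ≠ j → δ ≤ ‖e i - e j‖

/-- The multiplicity function `Σ 1_T` of a family of tubes with directions `e` and centres `a`. -/
noncomputable def mult {n : ℕ} (δ : ℝ) {ι : Type} [Fintype ι] (e a : ι → EuclideanSpace ℝ (Fin n))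
    (y : EuclideanSpace ℝ (Fin n)) : ℝ :=
  ∑ i, (tube δ (e i) (a i)).indicator (fun _ => (1 : ℝ)) y

/-- **Tube inequalities for semialgebraic test functions.**  For every `n ≥ 2` there is an exponent
`c` such that, for all `0 < δ < 1` and all finite families of `δ`-tubes in `ℝ^n` with `δ`-separated
orientations:

1. (the endpoint `q = n/(n-1)`, for sets) for `A` of complexity `≤ D`,
  `∫_A Σ 1_T ≤ C D^(c/n) δ^((n-1)^2/n) (#T)^(1-1/n) |A|^(1/n)`;
2. for `q > n/(n-1)` and `g` of complexity `≤ D`,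
  `∫ |g| Σ 1_T ≤ C D^(c/(q(n-1))) δ^((n-1)/q) (#T)^(1-1/(q(n-1))) ‖g‖_{q/(q-1)}`;
3. for `q > n/(n-1)`: if `Σ 1_T ≤ |g|` almost everywhere and `‖g‖_q ≤ K ‖Σ 1_T‖_q` for some `g` of
  complexity `≤ D` (for instance if `Σ 1_T` itself has complexity `≤ D`, and `K = 1`), then
  `‖Σ 1_T‖_q ≤ C K^(q-1) D^(c/(q(n-1))) δ^((n-1)/q) (#T)^(1-1/(q(n-1)))`.

The constants `C` depend on `n` and `q` only. -/
theorem result (n : ℕ) (hn : 2 ≤ n) : ∃ c : ℕ,
    (∃ C : ℝ, 0 < C ∧ ∀ (D : ℕ) (A : Set (EuclideanSpace ℝ (Fin n))) (δ : ℝ) (ι : Type)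
      [Fintype ι] (e a : ι → EuclideanSpace ℝ (Fin n)), 1 ≤ D → ComplexityLE D A →
      0 < δ → δ < 1 → Separated δ e →
      ∫⁻ y in A, ENNReal.ofReal (mult δ e a y) ≤
        ENNReal.ofReal (C * (D:ℝ) ^ ((c:ℝ) / n) * δ ^ (((n:ℝ) - 1) ^ 2 / n) *
          (Fintype.card ι : ℝ) ^ (1 - 1 / (n:ℝ))) * volume A ^ (1 / (n:ℝ))) ∧
    (∀ q : ℝ, (n:ℝ) / (n - 1) < q → ∃ C : ℝ, 0 < C ∧ ∀ (D : ℕ) (δ : ℝ) (ι : Type) [Fintype ι]
      (e a : ι → EuclideanSpace ℝ (Fin n)) (g : EuclideanSpace ℝ (Fin n) → ℝ), 1 ≤ D → 0 < δ →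
      δ < 1 → Separated δ e → AEMeasurable g volume → SemialgAE D g →
      ∫⁻ y, ‖g y‖ₑ * ENNReal.ofReal (mult δ e a y) ≤
        ENNReal.ofReal (C * (D:ℝ) ^ ((c:ℝ) / (q * (n - 1))) * δ ^ (((n:ℝ) - 1) / q) *
          (Fintype.card ι : ℝ) ^ (1 - 1 / (q * (n - 1)))) *
        eLpNorm g (ENNReal.ofReal (q / (q - 1))) volume) ∧
    (∀ q : ℝ, (n:ℝ) / (n - 1) < q → ∃ C : ℝ, 0 < C ∧ ∀ (D : ℕ) (δ K : ℝ) (ι : Type) [Fintype ι]
      (e a : ι → EuclideanSpace ℝ (Fin n)) (g : EuclideanSpace ℝ (Fin n) → ℝ), 1 ≤ D → 0 < δ →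
      δ < 1 → Separated δ e → AEMeasurable g volume → SemialgAE D g → 0 ≤ K →
      (∀ᵐ y, mult δ e a y ≤ |g y|) →
      eLpNorm g (ENNReal.ofReal q) volume ≤
        ENNReal.ofReal K * eLpNorm (mult δ e a) (ENNReal.ofReal q) volume →
      eLpNorm (mult δ e a) (ENNReal.ofReal q) volume ≤
        ENNReal.ofReal (C * K ^ (q - 1) * (D:ℝ) ^ ((c:ℝ) / (q * (n - 1))) * δ ^ (((n:ℝ) - 1) / q) *
          (Fintype.card ι : ℝ) ^ (1 - 1 / (q * (n - 1))))) := by
  obtain ⟨m, rfl⟩ : ∃ m, n = m + 1 := ⟨n - 1, by omega⟩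
  have hm : 1 ≤ m := by omega
  have hm0 : (0:ℝ) < m := by exact_mod_cast hm
  have hcast : ((m + 1 : ℕ) : ℝ) - 1 = m := by push_cast; ring
  have hcast' : ((m + 1 : ℕ) : ℝ) = m + 1 := by push_cast; ring
  refine ⟨Pool.Agent.W770.SA.exp1 (m + 1), ?_, ?_, ?_⟩
  · obtain ⟨C, hC, h⟩ := Pool.Agent.W770.SA.set_est m hm
    refine ⟨C ^ ((m:ℝ) / (m + 1)), by positivity, ?_⟩
    intro D A δ ι _ e a hD hA hδ hδ1 hsep
    have hD0 : (0:ℝ) < D := by exact_mod_cast hD
    have hAo : IsOpen A := Pool.Agent.W770.SA.ComplexityLE.isOpen hA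
    have h1 := h D A δ ι e a hD hA hδ hδ1.le hsep.1 hsep.2
    have h2 : ∫⁻ y in A, ENNReal.ofReal (mult δ e a y) = ∑ i, volume (tube δ (e i) (a i) ∩ A) := by
      rw [← lintegral_indicator hAo.measurableSet]
      have h3 := Pool.Agent.W770.SA.lintegral_multMeas δ e a (g := A.indicator 1)
        (measurable_one.indicator hAo.measurableSet).aemeasurable
      have h4 : ∀ y, A.indicator (1 : EuclideanSpace ℝ (Fin (m + 1)) → ℝ≥0∞) y *
          ENNReal.ofReal (Pool.Agent.W770.SA.mult δ e a y) =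
          A.indicator (fun y => ENNReal.ofReal (mult δ e a y)) y := by
        intro y
        by_cases hy : y ∈ A
        · rw [indicator_of_mem hy, indicator_of_mem hy, Pi.one_apply, one_mul]; rfl
        · rw [indicator_of_notMem hy, indicator_of_notMem hy, zero_mul]
      simp_rw [h4] at h3
      rw [← h3, lintegral_indicator_one hAo.measurableSet]
      unfold Pool.Agent.W770.SA.multMeas
      rw [Measure.finsetSum_apply]
      apply Finset.sum_congr rfl
      intro i _
      rw [Measure.restrict_apply hAo.measurableSet, inter_comm]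
      rfl
    rw [h2]
    rcases Nat.eq_zero_or_pos (Fintype.card ι) with h0 | h0
    · have : IsEmpty ι := Fintype.card_eq_zero_iff.1 h0
      simp
    set N : ℝ := (Fintype.card ι : ℝ) with hN
    have hN0 : 0 < N := by rw [hN]; exact_mod_cast h0
    rw [hcast']
    refine h1.trans (le_of_eq ?_)
    congr 2
    unfold Pool.Agent.W770.SA.critVol
    rw [Real.mul_rpow (by positivity) (by positivity), Real.mul_rpow (by positivity) (by positivity),
      Real.mul_rpow (by positivity) (by positivity), ← Real.rpow_mul hD0.le, ← Real.rpow_natCast δ m,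
      ← Real.rpow_mul hδ.le, ← Real.rpow_mul hN0.le]
    have e1 : (Pool.Agent.W770.SA.exp1 (m + 1) : ℝ) / m * ((m:ℝ) / (m + 1)) =
        (Pool.Agent.W770.SA.exp1 (m + 1) : ℝ) / (m + 1) := by field_simp
    have e2 : (m:ℝ) * ((m:ℝ) / (m + 1)) = ((m:ℝ) + 1 - 1) ^ 2 / (m + 1) := by ring
    have e3 : -(1 / (m:ℝ)) * ((m:ℝ) / (m + 1)) = -(1 / ((m:ℝ) + 1)) := by field_simp
    have e4 : N * N ^ (-(1 / ((m:ℝ) + 1))) = N ^ (1 - 1 / ((m:ℝ) + 1)) := by
      nth_rewrite 1 [← Real.rpow_one N]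
      rw [← Real.rpow_add hN0]
      congr 1
    rw [e1, e2, e3, ← e4]
    ring
  · intro q hq
    rw [hcast, hcast'] at hq
    obtain ⟨C, hC, h⟩ := Pool.Agent.W770.SA.tests m hm hq
    refine ⟨C, hC, ?_⟩
    intro D δ ι _ e a g hD hδ hδ1 hsep hgm hg
    have hq1 : 1 < q := by
      refine lt_of_le_of_lt ?_ hq
      rw [le_div_iff₀ hm0]; linarith
    have hp0 : 0 < q / (q - 1) := div_pos (by linarith) (by linarith)
    have h1 := h D δ ι e a g hD hδ hδ1.le hsep.1 hsep.2 hgm hg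
    rw [hcast, eLpNorm_eq_lintegral_rpow_enorm_toReal
      (by rw [Ne, ENNReal.ofReal_eq_zero, not_le]; exact hp0) ENNReal.ofReal_ne_top,
      ENNReal.toReal_ofReal hp0.le]
    have h2 : 1 / (q / (q - 1)) = (q - 1) / q := by rw [one_div_div]
    rw [h2]
    exact h1
  · intro q hq
    rw [hcast, hcast'] at hq
    obtain ⟨C, hC, h⟩ := Pool.Agent.W770.SA.majorant m hm hq
    refine ⟨C, hC, ?_⟩
    intro D δ K ι _ e a g hD hδ hδ1 hsep hgm hg hK hmaj hnorm
    have h1 := h D δ K ι e a g hD hδ hδ1.le hsep.1 hsep.2 hgm hg hK hmaj hnorm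
    rw [hcast]
    exact h1

end Pool.Agent.Results.MP_850839_an.SemialgebraicTests
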