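import Pool.Agent.W772.Fol9

set_option autoImplicit false

/-!
# MP_850839: the tube inequality in the full range, without loss, for families foliated by slabs

The tubes are arranged in a tree of groups.  Generation `0` is the whole family, the groups of
generation `l + 1` refine those of generation `l`, and the last generation is `n - 2`.  All the tubes
of a group `c` of generation `≥ 1` lie in one slab of thickness comparable to `δ`, with an arbitrary
normal vector `ν_c` and an arbitrary position `s_c`.  The only other conditions are on the directions:

* inside a group, a given tube `T` of the group makes an angle at most `r` with at most `A r / δ` of the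
  slabs of the subgroups (`δ ≤ r`);
* inside a group of the last generation a given tube makes an angle at most `r` with at most `A r / δ`
  of the tubes.

In `ℝ^3` these are families of planar families: the directions are foliated by arcs of great circles,
and the tubes with directions on one arc lie in one plane, which may depend on the arc in an arbitrary
manner.  In particular the planes need not be parallel nor pass through a line, and no regularity is
assumed.  For such families, and for unions of `N` such families, the conjectured inequality holds for
every `q > n/(n-1)`, with the constant `C(n,q) (A (1 + K))^(1/q) N^(1/(q(n-1)))`.

The proof is by induction on the number of generations.  If `F = ∑_c f_c` is the decomposition along the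
subgroups of comparable size and `w` the number of their slabs at a point then
`F^q ≤ (F w^s)^θ (∑_c f_c^p)^(1-θ)`; the integral of `F w^s` is estimated along each tube by
Minkowski's inequality, the other one by induction, and two choices of `(p, s)` near the critical pair
give a geometric decay away from the critical size of the subgroups.
-/

open MeasureTheory Set

namespace Pool.Agent.Results.MP_850839_an.ZFoliatedFamilies

open Pool.Agent.W772.Fol

/-- **The conjectured inequality in the full range `q > n/(n-1)`, `n = m + 1`, without loss**, for
unions of `N` families of `δ`-tubes foliated by slabs. -/
theorem result (m : ℕ) (hm : 1 ≤ m) (q : ℝ) (hq : ((m : ℝ) + 1) / m < q) :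
    ∃ C : ℝ, ∀ (N : ℕ) (K A δ : ℝ), 0 ≤ K → 0 ≤ A → 0 < δ → δ < 1 →
      ∀ (ι : Type) [Fintype ι] (e a : ι → Eu m), (∀ i, ‖e i‖ = 1) → UnionFoliated N K A δ e a →
        normSum q δ e a ≤
          ENNReal.ofReal (C * (A * (1 + K)) ^ (1 / q) * (N : ℝ) ^ (1 / (q * m)) *
            δ ^ ((m : ℝ) / q) * (Fintype.card ι : ℝ) ^ (1 - 1 / (q * m))) :=
  final m hm q hq

end Pool.Agent.Results.MP_850839_an.ZFoliatedFamilies
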